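import Pool.Agent.Helper19_RFK.Stmts

/-!
# Squad RFK, module POLA: polarization preserves admissibility
-/

set_option autoImplicit false

open MeasureTheory Set Pool.Agent.RFK

namespace Pool.Agent.RFK.H97

theorem inner_self_one {e : ℂ} (he : ‖e‖ = 1) : inner ℝ e e = (1 : ℝ) := by
  rw [real_inner_self_eq_norm_sq, he]; norm_num

theorem inner_refl {e : ℂ} (he : ‖e‖ = 1) (s : ℝ) (x : ℂ) :
    inner ℝ e (refl e s x) = 2 * s - inner ℝ e x := by
  unfold refl
  rw [inner_sub_right, real_inner_smul_right, inner_self_one he]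
  ring

theorem refl_refl {e : ℂ} (he : ‖e‖ = 1) (s : ℝ) (x : ℂ) : refl e s (refl e s x) = x := by
  have h := inner_refl he s x
  have h2 : refl e s (refl e s x) = refl e s x - (2 * (inner ℝ e (refl e s x) - s) : ℝ) • e := rfl
  rw [h2, h]
  unfold refl
  rw [sub_sub, ← add_smul]
  have h3 : (2 * (inner ℝ e x - s) + 2 * (2 * s - inner ℝ e x - s) : ℝ) = 0 := by ring
  rw [h3, zero_smul, sub_zero]

theorem norm_refl_sq {e : ℂ} (he : ‖e‖ = 1) (s : ℝ) (x : ℂ) :
    ‖refl e s x‖ ^ 2 = ‖x‖ ^ 2 - 4 * s * (inner ℝ e x - s) := by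
  unfold refl
  rw [norm_sub_sq_real, real_inner_smul_right, norm_smul, he, real_inner_comm, mul_one,
    Real.norm_eq_abs, sq_abs]
  ring

theorem norm_sub_refl_sq {e : ℂ} (he : ‖e‖ = 1) (s : ℝ) (x y : ℂ) :
    ‖x - refl e s y‖ ^ 2 = ‖x - y‖ ^ 2 + 4 * (inner ℝ e y - s) * (inner ℝ e x - s) := by
  have h : x - refl e s y = (x - y) + (2 * (inner ℝ e y - s) : ℝ) • e := by
    unfold refl; abel
  rw [h, norm_add_sq_real, real_inner_smul_right, norm_smul, he, mul_one,
    Real.norm_eq_abs, sq_abs, real_inner_comm e (x - y), inner_sub_right]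
  ring

theorem norm_refl_sub_refl {e : ℂ} (he : ‖e‖ = 1) (s : ℝ) (x y : ℂ) :
    ‖refl e s x - refl e s y‖ = ‖x - y‖ := by
  have h1 := norm_sub_refl_sq he s (refl e s x) y
  have h2 := norm_sub_refl_sq he s y x
  rw [norm_sub_rev (refl e s x) y, h2, inner_refl he, norm_sub_rev y x] at h1
  have h3 : ‖refl e s x - refl e s y‖ ^ 2 = ‖x - y‖ ^ 2 := by rw [h1]; ring
  exact (pow_left_inj₀ (norm_nonneg _) (norm_nonneg _) two_ne_zero).mp h3

theorem norm_le_norm_refl {e : ℂ} (he : ‖e‖ = 1) {s : ℝ} (hs : 0 ≤ s) {x : ℂ}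
    (hx : inner ℝ e x ≤ s) : ‖x‖ ≤ ‖refl e s x‖ := by
  have h := norm_refl_sq he s x
  have h2 : ‖x‖ ^ 2 ≤ ‖refl e s x‖ ^ 2 := by
    rw [h]
    have : s * (inner ℝ e x - s) ≤ 0 := mul_nonpos_of_nonneg_of_nonpos hs (by linarith)
    linarith
  exact (pow_le_pow_iff_left₀ (norm_nonneg _) (norm_nonneg _) two_ne_zero).mp h2

theorem norm_sub_refl_le {e : ℂ} (he : ‖e‖ = 1) {s : ℝ} {x y : ℂ}
    (hx : inner ℝ e x ≤ s) (hy : s ≤ inner ℝ e y) : ‖x - refl e s y‖ ≤ ‖x - y‖ := by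
  have h := norm_sub_refl_sq he s x y
  have h2 : ‖x - refl e s y‖ ^ 2 ≤ ‖x - y‖ ^ 2 := by
    rw [h]
    have : (inner ℝ e y - s) * (inner ℝ e x - s) ≤ 0 :=
      mul_nonpos_of_nonneg_of_nonpos (by linarith) (by linarith)
    linarith
  exact (pow_le_pow_iff_left₀ (norm_nonneg _) (norm_nonneg _) two_ne_zero).mp h2

theorem polar_in {e : ℂ} {s : ℝ} {g : ℂ → ℝ} {x : ℂ} (hx : inner ℝ e x ≤ s) :
    polar e s g x = max (g x) (g (refl e s x)) := by
  unfold polar; rw [if_pos hx]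

theorem polar_out {e : ℂ} {s : ℝ} {g : ℂ → ℝ} {x : ℂ} (hx : ¬ inner ℝ e x ≤ s) :
    polar e s g x = min (g x) (g (refl e s x)) := by
  unfold polar; rw [if_neg hx]

/-- the mixed case of the Lipschitz bound -/
theorem mixed {e : ℂ} (he : ‖e‖ = 1) {s : ℝ} {L : NNReal} {g : ℂ → ℝ} (hg : LipschitzWith L g)
    {x y : ℂ} (hx : inner ℝ e x ≤ s) (hy : ¬ inner ℝ e y ≤ s) :
    |polar e s g x - polar e s g y| ≤ L * ‖x - y‖ := by
  have hL : ∀ a b : ℂ, |g a - g b| ≤ L * ‖a - b‖ := fun a b => by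
    have := hg.dist_le_mul a b
    rwa [Real.dist_eq, dist_eq_norm] at this
  have hy' : s ≤ inner ℝ e y := (not_le.mp hy).le
  have h1 := abs_le.mp (hL x y)
  have h2 := abs_le.mp (hL (refl e s x) (refl e s y))
  rw [norm_refl_sub_refl he] at h2
  have h3 := abs_le.mp (hL x (refl e s y))
  have h4 := abs_le.mp (hL (refl e s x) y)
  have h5 : (L : ℝ) * ‖x - refl e s y‖ ≤ L * ‖x - y‖ :=
    mul_le_mul_of_nonneg_left (norm_sub_refl_le he hx hy') L.2
  have h6 : (L : ℝ) * ‖refl e s x - y‖ ≤ L * ‖x - y‖ := by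
    have h7 : ‖refl e s x - y‖ = ‖x - refl e s y‖ := by
      have := norm_refl_sub_refl he s x (refl e s y)
      rw [refl_refl he] at this
      exact this
    rw [h7]; exact h5
  rw [polar_in hx, polar_out hy, abs_le]
  rcases le_total (g x) (g (refl e s x)) with ha | ha <;>
    rcases le_total (g y) (g (refl e s y)) with hb | hb <;>
    simp only [max_eq_left, max_eq_right, min_eq_left, min_eq_right, ha, hb] <;>
    constructor <;> linarith

theorem pola : PolaStmt := by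
  intro e s L ρ g he hs hg
  have hL : ∀ a b : ℂ, |g a - g b| ≤ L * ‖a - b‖ := fun a b => by
    have := hg.lip.dist_le_mul a b
    rwa [Real.dist_eq, dist_eq_norm] at this
  refine ⟨?_, ?_, ?_⟩
  · refine LipschitzWith.of_dist_le_mul (fun x y => ?_)
    rw [Real.dist_eq, dist_eq_norm]
    have h2 := hL (refl e s x) (refl e s y)
    rw [norm_refl_sub_refl he] at h2
    by_cases hx : inner ℝ e x ≤ s
    · by_cases hy : inner ℝ e y ≤ s
      · rw [polar_in hx, polar_in hy]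
        exact (abs_max_sub_max_le_max _ _ _ _).trans (max_le (hL x y) h2)
      · exact mixed he hg.lip hx hy
    · by_cases hy : inner ℝ e y ≤ s
      · rw [abs_sub_comm, norm_sub_rev]
        exact mixed he hg.lip hy hx
      · rw [polar_out hx, polar_out hy]
        exact (abs_min_sub_min_le_max _ _ _ _).trans (max_le (hL x y) h2)
  · intro x
    by_cases hx : inner ℝ e x ≤ s
    · rw [polar_in hx]; exact le_max_of_le_left (hg.nonneg x)
    · rw [polar_out hx]; exact le_min (hg.nonneg x) (hg.nonneg _)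
  · intro x hρ
    by_cases hx : inner ℝ e x ≤ s
    · rw [polar_in hx, hg.supp x hρ, hg.supp _ (hρ.trans (norm_le_norm_refl he hs hx)), max_self]
    · rw [polar_out hx, hg.supp x hρ]; exact min_eq_left (hg.nonneg _)

end Pool.Agent.RFK.H97
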