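import Pool.Agent.Helper97_RFK.Pola

/-!
# Squad RFK, module POLE: polarization is equimeasurable
-/

set_option autoImplicit false

open MeasureTheory Set Pool.Agent.RFK

namespace Pool.Agent.RFK.H97

theorem refl_continuous (e : ℂ) (s : ℝ) : Continuous (refl e s) := by
  unfold refl
  fun_prop

theorem refl_measurePreserving {e : ℂ} (he : ‖e‖ = 1) (s : ℝ) :
    MeasurePreserving (refl e s) volume volume := by
  have h1 : MeasurePreserving ((ℝ ∙ e)ᗮ.reflection) volume volume :=
    ((ℝ ∙ e)ᗮ.reflection).measurePreserving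
  have h2 : MeasurePreserving (fun x : ℂ => x + (2 * s : ℝ) • e) volume volume :=
    measurePreserving_add_right volume _
  have h3 : refl e s = (fun x : ℂ => x + (2 * s : ℝ) • e) ∘ ((ℝ ∙ e)ᗮ.reflection) := by
    funext x
    simp only [Function.comp]
    rw [Submodule.reflection_orthogonal_apply, Submodule.reflection_singleton_apply, he]
    unfold refl
    simp only [RCLike.ofReal_real_eq_id, id, one_pow, div_one]
    rw [neg_sub, mul_sub, sub_smul, two_smul, mul_smul, two_smul ℝ (inner ℝ e x • e)]
    abel
  rw [h3]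
  exact h2.comp h1

/-- the reflection as a measurable equivalence -/
noncomputable def reflEquiv {e : ℂ} (he : ‖e‖ = 1) (s : ℝ) : ℂ ≃ᵐ ℂ where
  toFun := refl e s
  invFun := refl e s
  left_inv := refl_refl he s
  right_inv := refl_refl he s
  measurable_toFun := (refl_continuous e s).measurable
  measurable_invFun := (refl_continuous e s).measurable

theorem integral_refl {e : ℂ} (he : ‖e‖ = 1) (s : ℝ) (F : ℂ → ℝ) :
    ∫ x, F (refl e s x) = ∫ x, F x :=
  (refl_measurePreserving he s).integral_comp (reflEquiv he s).measurableEmbedding F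

theorem adm_hasCompactSupport {L : NNReal} {ρ : ℝ} {g : ℂ → ℝ} (hg : Adm L ρ g) {ψ : ℝ → ℝ}
    (h0 : ψ 0 = 0) : HasCompactSupport (fun x => ψ (g x)) := by
  refine HasCompactSupport.intro (isCompact_closedBall (0 : ℂ) ρ) (fun x hx => ?_)
  have : ρ ≤ ‖x‖ := by
    rw [Metric.mem_closedBall, dist_zero_right, not_le] at hx
    exact hx.le
  rw [hg.supp x this, h0]

theorem adm_integrable {L : NNReal} {ρ : ℝ} {g : ℂ → ℝ} (hg : Adm L ρ g) {ψ : ℝ → ℝ}
    (hψ : Continuous ψ) (h0 : ψ 0 = 0) : Integrable (fun x => ψ (g x)) :=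
  (hψ.comp hg.lip.continuous).integrable_of_hasCompactSupport (adm_hasCompactSupport hg h0)

/-- symmetrization: a function plus its reflection -/
theorem polar_sum {e : ℂ} (he : ‖e‖ = 1) (s : ℝ) (g : ℂ → ℝ) (ψ : ℝ → ℝ) (x : ℂ) :
    ψ (polar e s g x) + ψ (polar e s g (refl e s x)) = ψ (g x) + ψ (g (refl e s x)) := by
  rcases lt_trichotomy (inner ℝ e x) s with h | h | h
  · have h1 : ¬ inner ℝ e (refl e s x) ≤ s := by rw [inner_refl he]; linarith
    rw [polar_in h.le, polar_out h1, refl_refl he]
    rcases le_total (g x) (g (refl e s x)) with ha | ha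
    · rw [max_eq_right ha, min_eq_right ha]; ring
    · rw [max_eq_left ha, min_eq_left ha]
  · have h1 : refl e s x = x := by
      unfold refl; rw [h, sub_self, mul_zero, zero_smul, sub_zero]
    rw [h1, polar_in h.le, h1, max_self]
  · have h1 : inner ℝ e (refl e s x) ≤ s := by rw [inner_refl he]; linarith
    rw [polar_out (not_le.mpr h), polar_in h1, refl_refl he]
    rcases le_total (g x) (g (refl e s x)) with ha | ha
    · rw [max_eq_left ha, min_eq_left ha]
    · rw [max_eq_right ha, min_eq_right ha]; ring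

theorem pole : PoleStmt := by
  intro e s L ρ g he hs hg ψ hψ h0
  have hp := pola e s L ρ g he hs hg
  have i1 := adm_integrable hp hψ h0
  have i2 := adm_integrable hg hψ h0
  have j1 : Integrable (fun x => ψ (polar e s g (refl e s x))) :=
    (refl_measurePreserving he s).integrable_comp_of_integrable i1
  have j2 : Integrable (fun x => ψ (g (refl e s x))) :=
    (refl_measurePreserving he s).integrable_comp_of_integrable i2
  have k1 : ∫ x, ψ (polar e s g (refl e s x)) = ∫ x, ψ (polar e s g x) :=
    integral_refl he s (fun x => ψ (polar e s g x))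
  have k2 : ∫ x, ψ (g (refl e s x)) = ∫ x, ψ (g x) := integral_refl he s (fun x => ψ (g x))
  have h : ∫ x, (ψ (polar e s g x) + ψ (polar e s g (refl e s x))) =
      ∫ x, (ψ (g x) + ψ (g (refl e s x))) := by
    congr 1
    funext x
    exact polar_sum he s g ψ x
  rw [integral_add i1 j1, integral_add i2 j2, k1, k2] at h
  linarith

end Pool.Agent.RFK.H97
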